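import Pool.Agent.W469.CL.REL

/-!
# The Perron vector is an eigenvector of the double row matrices
-/

set_option autoImplicit false

open Polynomial Filter Topology

namespace W96CL.W469

theorem phL_alt (x : ℂ) {z : ℂ} (n : ℕ) :
    phL x (alt z n) = ((1 + x / z) * (1 + x * z)) ^ (2 * n) := by
  induction n with
  | zero => simp [phL, alt]
  | succ n ih =>
    have h1 : phL x (alt z (n + 1)) = ph1 x z * (ph1 x z⁻¹ * phL x (alt z n)) := by
      simp [phL, alt]
    rw [h1, ih]
    have h2 : ph1 x z⁻¹ = (1 + x / z) * (1 + x * z) := by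
      unfold ph1
      rw [div_inv_eq_mul, div_eq_mul_inv]
      ring
    have h3 : ph1 x z = (1 + x / z) * (1 + x * z) := rfl
    rw [h2, h3]
    ring

theorem exp_uu : Complex.exp ((Real.pi / 3 : ℝ) * Complex.I) = uu := by
  rw [Complex.exp_mul_I, ← Complex.ofReal_cos, ← Complex.ofReal_sin, Real.cos_pi_div_three,
    Real.sin_pi_div_three]
  apply Complex.ext
  · simp [uu]
  · simp [uu]

theorem EC_conj (n i : ℕ) : (EC n i).map (starRingEnd ℂ) = EC n i := by
  ext a b
  simp [EC, Matrix.map_apply]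

end W96CL.W469

namespace W96CL

open W469

theorem cl_eig (hr : S_rep) (hl : S_layer) (hsp : S_special) (hre : S_real) (hp : S_poly)
    (hn : S_norm) : S_eig := by
  intro n θ v l hn1 hθ0 hθ1 hv hsum hTv huniq
  obtain ⟨hTL, _, _, _, _, _⟩ := hr n hn1
  obtain ⟨_, _, hy0, hLay, hphL⟩ := hn n θ hθ0 hθ1
  set z : ℂ := Complex.exp (θ * Complex.I) with hz
  have hznorm : ‖z‖ = 1 := Complex.norm_exp_ofReal_mul_I θ
  have hz0 : z ≠ 0 := Complex.exp_ne_zero _
  have hLlen : (alt z n).length = 2 * n := alt_length z n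
  have hLnorm : ∀ w ∈ alt z n, ‖w‖ = 1 := by
    intro w hw
    rcases alt_mem hw with rfl | rfl
    · exact hznorm
    · rw [norm_inv, hznorm, inv_one]
  set vc : St n → ℂ := fun s => (v s : ℂ) with hvc
  set TC : Matrix (St n) (St n) ℂ := (TT n (pp θ)).map (algebraMap ℝ ℂ) with hTC
  have hLL : Lay (EC n) (uu / z ^ 2) 1 (n - 1) * Lay (EC n) (uu / z ^ 2) 0 n =
      ((1 + uu / z ^ 2) ^ (2 * n - 1)) • TC := by
    rw [hLay, hLay, hTC, TT, Matrix.map_mul, Matrix.smul_mul, Matrix.mul_smul, smul_smul,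
      ← pow_add]
    congr 2
    omega
  have hTvc : TC.mulVec vc = (l : ℂ) • vc := by
    funext s
    have h1 := RingHom.map_mulVec (algebraMap ℝ ℂ) (TT n (pp θ)) v s
    rw [hTv] at h1
    have h2 : TC.mulVec vc s = ((algebraMap ℝ ℂ) ((l • v) s)) := h1.symm
    rw [h2]
    simp [hvc]
  have hcomm : ∀ x : ℂ, TC * DD (EC n) x 0 (alt z n) = DD (EC n) x 0 (alt z n) * TC := by
    intro x
    have h1 := hl (Matrix (St n) (St n) ℂ) (EC n) n hn1 hTL x z hz0
    rw [hLL] at h1
    have h2 : ((1 + uu / z ^ 2) ^ (2 * n - 1)) • (TC * DD (EC n) x 0 (alt z n)) =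
        ((1 + uu / z ^ 2) ^ (2 * n - 1)) • (DD (EC n) x 0 (alt z n) * TC) := by
      rw [← Matrix.smul_mul, ← Matrix.mul_smul]
      exact h1
    exact smul_right_injective _ (pow_ne_zero _ hy0) h2
  have hc : ∀ x : ℂ, ∃ c : ℂ, (DD (EC n) x 0 (alt z n)).mulVec vc = c • vc := by
    intro x
    obtain ⟨c, hc⟩ := huniq ((DD (EC n) x 0 (alt z n)).mulVec vc) (by
      show TC.mulVec _ = _
      rw [Matrix.mulVec_mulVec, hcomm x, ← Matrix.mulVec_mulVec, hTvc, Matrix.mulVec_smul])
    exact ⟨c, hc⟩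
  choose c hc using hc
  have hsumc : ∑ s, vc s = 1 := by
    have : (((∑ s, v s : ℝ)) : ℂ) = 1 := by rw [hsum]; norm_num
    rw [← this]
    push_cast
    rfl
  have hcval : ∀ x, c x = ∑ a, ∑ b, DD (EC n) x 0 (alt z n) a b * vc b := by
    intro x
    have h1 : ∑ a, (DD (EC n) x 0 (alt z n)).mulVec vc a = c x := by
      rw [hc x]
      simp only [Pi.smul_apply, smul_eq_mul]
      rw [← Finset.mul_sum, hsumc, mul_one]
    rw [← h1]
    rfl
  choose P hPdeg hP using fun a b : St n => hp (St n) (EC n) 0 (alt z n) a b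
  set CP : ℂ[X] := ∑ a, ∑ b, P a b * C (vc b) with hCP
  have hCPev : ∀ x, CP.eval x = c x := by
    intro x
    rw [hcval x, hCP, Polynomial.eval_finsetSum]
    refine Finset.sum_congr rfl fun a _ => ?_
    rw [Polynomial.eval_finsetSum]
    refine Finset.sum_congr rfl fun b _ => ?_
    rw [Polynomial.eval_mul, Polynomial.eval_C, hP a b x]
  have hCPdeg : CP.natDegree ≤ 4 * n := by
    rw [hCP]
    refine Polynomial.natDegree_sum_le_of_forall_le _ _ fun a _ => ?_
    refine Polynomial.natDegree_sum_le_of_forall_le _ _ fun b _ => ?_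
    refine (Polynomial.natDegree_mul_C_le _ _).trans ?_
    have := hPdeg a b
    rw [hLlen] at this
    omega
  obtain ⟨t, ht⟩ := real_poly CP (by
    intro x
    rw [hCPev, hcval, map_sum]
    refine Finset.sum_congr rfl fun a _ => ?_
    rw [map_sum]
    refine Finset.sum_congr rfl fun b _ => ?_
    have h1 := hre (St n) (EC n) (2 * n) hTL (EC_conj n) (x : ℂ) 0 (alt z n) hLnorm (by omega)
    rw [Complex.conj_ofReal] at h1
    have h2 := congrFun (congrFun h1 a) b
    rw [Matrix.map_apply] at h2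
    rw [map_mul, ← h2]
    congr 1
    exact Complex.conj_ofReal _)
  have htev : ∀ x : ℂ, aeval x t = c x := by
    intro x
    rw [aeval_map, ht, hCPev]
  refine ⟨t, ?_, ?_, ?_⟩
  · rw [← Polynomial.natDegree_map (algebraMap ℝ ℂ), ht]
    exact hCPdeg
  · intro x
    rw [htev]
    exact hc x
  · have hx0 : Complex.exp ((Real.pi / 3 - θ : ℝ) * Complex.I) = uu / z := by
      rw [hz, ← exp_uu, ← Complex.exp_sub]
      congr 1
      push_cast
      ring
    rw [hx0]
    have h1 := hsp (Matrix (St n) (St n) ℂ) (EC n) n hn1 hTL z hz0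
    rw [hLL, smul_smul] at h1
    have h2 : (DD (EC n) (uu / z) 0 (alt z n)).mulVec vc = _ :=
      congrArg (fun M => Matrix.mulVec M vc) h1
    rw [hc, Matrix.smul_mulVec, hTvc, smul_smul] at h2
    have h3 := congrFun h2 (st0 n)
    simp only [Pi.smul_apply, smul_eq_mul] at h3
    have h4 : vc (st0 n) ≠ 0 := by
      simp only [hvc]
      exact_mod_cast (hv (st0 n)).ne'
    have h5 := mul_right_cancel₀ h4 h3
    rw [htev, h5, ← hphL, phL_alt]
    have h6 : uu / z / z = uu / z ^ 2 := by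
      rw [div_div, pow_two]
    have h7 : uu / z * z = uu := div_mul_cancel₀ _ hz0
    rw [h6, h7, mul_pow]
    have h8 : (1 + uu / z ^ 2) ^ (2 * n) = (1 + uu / z ^ 2) * (1 + uu / z ^ 2) ^ (2 * n - 1) := by
      rw [← pow_succ']
      congr 1
      omega
    rw [h8]
    ring

end W96CL
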