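import Pool.Agent.W96.CL.Stm

/-!
# The functional relations for the eigenvalue
-/

set_option autoImplicit false

open Polynomial Filter Topology

namespace W96CL.W469

theorem om_rel : om ^ 2 + om + 1 = 0 := by
  have h : Real.sqrt 3 * Real.sqrt 3 = 3 := Real.mul_self_sqrt (by norm_num)
  apply Complex.ext
  · simp only [om, pow_two, Complex.add_re, Complex.mul_re, Complex.one_re, Complex.zero_re]
    nlinarith
  · simp only [om, pow_two, Complex.add_im, Complex.mul_im, Complex.one_im, Complex.zero_im]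
    ring

theorem om_cube : om ^ 3 = 1 := by
  linear_combination (om - 1) * om_rel

theorem om_ne_zero : om ≠ 0 := by
  intro h
  have := om_rel
  rw [h] at this
  norm_num at this

theorem om_ne_one : om ≠ 1 := by
  intro h
  have := om_rel
  rw [h] at this
  norm_num at this

theorem conj_om : (starRingEnd ℂ) om = om ^ 2 := by
  have h : Real.sqrt 3 * Real.sqrt 3 = 3 := Real.mul_self_sqrt (by norm_num)
  apply Complex.ext
  · simp only [om, pow_two, Complex.mul_re, Complex.conj_re]
    nlinarith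
  · simp only [om, pow_two, Complex.mul_im, Complex.conj_im]
    ring

theorem alt_length (z : ℂ) (n : ℕ) : (alt z n).length = 2 * n := by
  induction n with
  | zero => rfl
  | succ n ih =>
    simp only [alt, List.length_cons, ih]
    ring

theorem alt_mem {z : ℂ} {n : ℕ} {w : ℂ} (h : w ∈ alt z n) : w = z ∨ w = z⁻¹ := by
  induction n with
  | zero => simp [alt] at h
  | succ n ih =>
    simp only [alt, List.mem_cons] at h
    rcases h with h | h | h
    · exact Or.inl h
    · exact Or.inr h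
    · exact ih h

theorem lay0_map (n m : ℕ) : ∀ i, lay0 (EC n) i m = (lay0 (ER n) i m).map (algebraMap ℝ ℂ) := by
  induction m with
  | zero =>
    intro i
    simp only [lay0]
    exact (Matrix.map_one _ (map_zero _) (map_one _)).symm
  | succ m ih =>
    intro i
    simp only [lay0]
    rw [Matrix.map_mul, ih (i + 2)]
    rfl

/-- a complex polynomial which is real on the real line has real coefficients -/
theorem real_poly (P : ℂ[X]) (h : ∀ x : ℝ, (starRingEnd ℂ) (P.eval (x : ℂ)) = P.eval (x : ℂ)) :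
    ∃ Q : ℝ[X], Q.map (algebraMap ℝ ℂ) = P := by
  have h1 : P.map (starRingEnd ℂ) = P := by
    refine Polynomial.eq_of_infinite_eval_eq _ _ ?_
    refine Set.Infinite.mono ?_ (Set.infinite_range_of_injective Complex.ofReal_injective)
    rintro _ ⟨x, rfl⟩
    show (P.map (starRingEnd ℂ)).eval (x : ℂ) = P.eval (x : ℂ)
    have h2 : (P.map (starRingEnd ℂ)).eval ((starRingEnd ℂ) (x : ℂ)) =
        (starRingEnd ℂ) (P.eval (x : ℂ)) := by
      rw [Polynomial.eval_map, Polynomial.eval₂_at_apply]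
    rw [Complex.conj_ofReal] at h2
    rw [h2, h x]
  have h2 : P ∈ Polynomial.lifts (algebraMap ℝ ℂ) := by
    rw [Polynomial.lifts_iff_coeff_lifts]
    intro k
    have h3 : (starRingEnd ℂ) (P.coeff k) = P.coeff k := by
      conv_rhs => rw [← h1]
      rw [Polynomial.coeff_map]
    obtain ⟨r, hr⟩ := Complex.conj_eq_iff_real.1 h3
    exact ⟨r, hr.symm⟩
  obtain ⟨Q, hQ⟩ := (Polynomial.mem_lifts _).1 h2
  exact ⟨Q, hQ⟩

theorem aeval_map (t : ℝ[X]) (x : ℂ) : aeval x t = (t.map (algebraMap ℝ ℂ)).eval x := by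
  rw [Polynomial.eval_map_algebraMap]

theorem conj_aeval (t : ℝ[X]) (x : ℂ) :
    (starRingEnd ℂ) (aeval x t) = aeval ((starRingEnd ℂ) x) t := by
  rw [Polynomial.aeval_conj]

/-- no common zero -/
theorem no_common {c : ℝ} (hc : 1 / 2 < c) (x : ℂ) (h0 : x ^ 2 + 2 * c * x + 1 = 0)
    (h1 : (om * x) ^ 2 + 2 * c * (om * x) + 1 = 0) : False := by
  have hom := om_rel
  have h2 : (om - 1) * om * (2 * c * x - om) = 0 := by
    linear_combination om ^ 2 * h0 - h1 - (om - 1) * hom
  have h3 : 2 * (c : ℂ) * x - om = 0 := by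
    rcases mul_eq_zero.1 h2 with h | h
    · rcases mul_eq_zero.1 h with h | h
      · exact absurd (sub_eq_zero.1 h) om_ne_one
      · exact absurd h om_ne_zero
    · exact h
  have h4 : om ^ 2 * (1 - 4 * (c : ℂ) ^ 2) = 0 := by
    have h5 : 2 * (c : ℂ) * x = om := sub_eq_zero.1 h3
    have h6 : (2 * (c : ℂ) * x) ^ 2 + 4 * (c : ℂ) ^ 2 * (2 * (c : ℂ) * x) + 4 * (c : ℂ) ^ 2 = 0 := by
      linear_combination 4 * (c : ℂ) ^ 2 * h0
    rw [h5] at h6
    linear_combination h6 - 4 * (c : ℂ) ^ 2 * hom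
  rcases mul_eq_zero.1 h4 with h | h
  · exact om_ne_zero (pow_eq_zero_iff (by norm_num) |>.1 h)
  · have h5 : (1 - 4 * c ^ 2 : ℝ) = 0 := by exact_mod_cast h
    nlinarith

end W96CL.W469

namespace W96CL

open W469

theorem cl_rel (hr : S_rep) (hx : S_cross) (hch : S_chain) (h2 : S_two) (hn : S_norm) :
    S_rel := by
  intro n θ v t hn1 hθ0 hθ1 hv hdeg heig
  obtain ⟨hTL, hl0, _, _, _, hpos⟩ := hr n hn1
  obtain ⟨_, _, _, _, hphL⟩ := hn n θ hθ0 hθ1
  obtain ⟨τ, hτ⟩ := hpos v hv
  set z : ℂ := Complex.exp (θ * Complex.I) with hz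
  have hznorm : ‖z‖ = 1 := Complex.norm_exp_ofReal_mul_I θ
  have hz0 : z ≠ 0 := Complex.exp_ne_zero _
  have hLlen : (alt z n).length = 2 * n := alt_length z n
  have hLnorm : ∀ w ∈ alt z n, ‖w‖ = 1 := by
    intro w hw
    rcases alt_mem hw with rfl | rfl
    · exact hznorm
    · rw [norm_inv, hznorm, inv_one]
  have hL0 : ∀ w ∈ alt z n, w ≠ 0 := by
    intro w hw h
    have := hLnorm w hw
    rw [h, norm_zero] at this
    norm_num at this
  set vc : St n → ℂ := fun s => (v s : ℂ) with hvc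
  have hvc0 : ∀ s, vc s ≠ 0 := fun s => by
    simp only [hvc]
    exact_mod_cast (hv s).ne'
  set b : St n := st0 n with hb
  -- the palindromic relation
  have hpalx : ∀ x : ℂ, x ≠ 0 → x ^ (4 * n) * aeval x⁻¹ t = aeval x t := by
    intro x hx0
    have h1 := hx (Matrix (St n) (St n) ℂ) (EC n) (2 * n) hTL x 0 (alt z n) hL0 (by omega) hx0
    have h3 : ((x ^ (2 * (alt z n).length)) • DD (EC n) x⁻¹ 0 (alt z n)).mulVec vc =
        (DD (EC n) x 0 (alt z n)).mulVec vc := by rw [h1]
    rw [Matrix.smul_mulVec, heig x⁻¹, heig x, hLlen] at h3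
    have h4 := congrFun h3 b
    simp only [Pi.smul_apply, smul_eq_mul] at h4
    have h5 : 2 * (2 * n) = 4 * n := by ring
    rw [h5, ← mul_assoc] at h4
    exact mul_right_cancel₀ (hvc0 b) h4
  have hrefl : t.reflect (4 * n) = t := by
    refine Polynomial.eq_of_infinite_eval_eq _ _ ?_
    refine Set.Infinite.mono ?_ (Set.Ioi_infinite (0 : ℝ))
    intro y hy
    have hy0 : y ≠ 0 := ne_of_gt hy
    have hyc : (y : ℂ) ≠ 0 := by exact_mod_cast hy0
    show (t.reflect (4 * n)).eval y = t.eval y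
    have h1 := hpalx ((y : ℂ)⁻¹) (inv_ne_zero hyc)
    rw [inv_inv] at h1
    haveI : Invertible (y⁻¹) := invertibleOfNonzero (inv_ne_zero hy0)
    have h3 := Polynomial.eval₂_reflect_mul_pow (RingHom.id ℝ) (y⁻¹) (4 * n) t hdeg
    rw [invOf_eq_inv, inv_inv] at h3
    have h4 : aeval (y : ℂ) t = ((t.eval y : ℝ) : ℂ) := by
      have := Polynomial.aeval_algebraMap_apply_eq_algebraMap_eval (A := ℂ) y t
      simpa using this
    have h5 : aeval ((y : ℂ)⁻¹) t = ((t.eval y⁻¹ : ℝ) : ℂ) := by
      have := Polynomial.aeval_algebraMap_apply_eq_algebraMap_eval (A := ℂ) y⁻¹ t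
      simpa using this
    rw [h4, h5] at h1
    have h6 : (y⁻¹) ^ (4 * n) * t.eval y = t.eval y⁻¹ := by
      exact_mod_cast h1
    have h7 : (t.reflect (4 * n)).eval y * (y⁻¹) ^ (4 * n) = t.eval y⁻¹ := h3
    have h8 : (y⁻¹) ^ (4 * n) ≠ 0 := pow_ne_zero _ (inv_ne_zero hy0)
    rw [← h6, mul_comm] at h7
    exact mul_left_cancel₀ h8 h7
  have hpal : ∀ k, k ≤ 4 * n → t.coeff k = t.coeff (4 * n - k) := by
    intro k hk
    conv_lhs => rw [← hrefl]
    rw [Polynomial.coeff_reflect, Polynomial.revAt_le hk]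
  -- the value at zero
  have hzero : t.coeff 0 = -2 := by
    have h1 := (hch (Matrix (St n) (St n) ℂ) (EC n) n hn1 hTL hl0).1 z
    have h3 : (lay0 (EC n) 0 (n - 1) * DD (EC n) 0 0 (alt z n)).mulVec vc =
        ((-2 : ℂ) • lay0 (EC n) 0 (n - 1)).mulVec vc := by rw [h1]
    rw [← Matrix.mulVec_mulVec, heig 0, Matrix.mulVec_smul, Matrix.smul_mulVec] at h3
    have h4 := congrFun h3 τ
    simp only [Pi.smul_apply, smul_eq_mul] at h4
    have h5 : (lay0 (EC n) 0 (n - 1)).mulVec vc τ =
        (((lay0 (ER n) 0 (n - 1)).mulVec v τ : ℝ) : ℂ) := by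
      rw [lay0_map]
      have := RingHom.map_mulVec (algebraMap ℝ ℂ) (lay0 (ER n) 0 (n - 1)) v τ
      exact this.symm
    have h6 : (lay0 (EC n) 0 (n - 1)).mulVec vc τ ≠ 0 := by
      rw [h5]
      exact_mod_cast hτ.ne'
    have h7 := mul_right_cancel₀ h6 h4
    rw [Polynomial.aeval_def, Polynomial.eval₂_at_zero] at h7
    have h8 : ((t.coeff 0 : ℝ) : ℂ) = ((-2 : ℝ) : ℂ) := by
      rw [show ((t.coeff 0 : ℝ) : ℂ) = (algebraMap ℝ ℂ) (t.coeff 0) from rfl, h7]
      norm_num
    exact_mod_cast h8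
  -- the second relation
  have hphC : ∀ x : ℂ, phL x (alt z n) = aeval x (phi n θ) := hphL
  have htwoC : ∃ VC : ℂ[X], ∀ x : ℂ, aeval (om * x) t * aeval (om ^ 2 * x) t =
      aeval (om * x) (phi n θ) * aeval (om ^ 2 * x) (phi n θ)
        + aeval x (phi n θ) * VC.eval x := by
    have hTL' : TL (EC n) (alt z n).length := by rw [hLlen]; exact hTL
    choose P hP using fun s : St n => h2 (St n) (EC n) (alt z n) hTL' hLnorm b s
    refine ⟨C (vc b)⁻¹ * ∑ s, C (vc s) * P s, fun x => ?_⟩
    have h3 : (DD (EC n) (om * x) 0 (alt z n) * DD (EC n) (om ^ 2 * x) 0 (alt z n)).mulVec vc b =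
        aeval (om * x) t * aeval (om ^ 2 * x) t * vc b := by
      rw [← Matrix.mulVec_mulVec, heig, Matrix.mulVec_smul, heig]
      simp only [Pi.smul_apply, smul_eq_mul]
      ring
    have h4 : (DD (EC n) (om * x) 0 (alt z n) * DD (EC n) (om ^ 2 * x) 0 (alt z n)).mulVec vc b =
        phL (om * x) (alt z n) * phL (om ^ 2 * x) (alt z n) * vc b +
          phL x (alt z n) * ∑ s, (P s).eval x * vc s := by
      have h5 : ∀ s, (DD (EC n) (om * x) 0 (alt z n) * DD (EC n) (om ^ 2 * x) 0 (alt z n)) b s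
          * vc s = phL (om * x) (alt z n) * phL (om ^ 2 * x) (alt z n) *
            (if b = s then vc s else 0) + phL x (alt z n) * ((P s).eval x * vc s) := by
        intro s
        have h6 := hP s x
        have h7 : (if b = s then vc s else 0) = (if b = s then (1 : ℂ) else 0) * vc s := by
          split <;> simp
        rw [h7]
        linear_combination vc s * h6
      show ∑ s, (DD (EC n) (om * x) 0 (alt z n) * DD (EC n) (om ^ 2 * x) 0 (alt z n)) b s
          * vc s = _
      rw [Finset.sum_congr rfl fun s _ => h5 s, Finset.sum_add_distrib, ← Finset.mul_sum,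
        ← Finset.mul_sum]
      simp
    rw [h3, hphC, hphC, hphC] at h4
    have h8 : (C (vc b)⁻¹ * ∑ s, C (vc s) * P s).eval x =
        (vc b)⁻¹ * ∑ s, (P s).eval x * vc s := by
      rw [Polynomial.eval_mul, Polynomial.eval_C, Polynomial.eval_finset_sum]
      congr 1
      refine Finset.sum_congr rfl fun s _ => ?_
      rw [Polynomial.eval_mul, Polynomial.eval_C]
      ring
    rw [h8]
    have h9 := hvc0 b
    field_simp
    linear_combination h4
  obtain ⟨VC, hVC⟩ := htwoC
  have hcos : 1 / 2 < Real.cos θ := by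
    rw [← Real.cos_pi_div_three]
    exact Real.cos_lt_cos_of_nonneg_of_le_pi hθ0.le (by linarith [Real.pi_pos]) hθ1
  have hphreal : ∀ x : ℝ, aeval (x : ℂ) (phi n θ) ≠ 0 := by
    intro x h
    have h1 : aeval (x : ℂ) (phi n θ) = (((phi n θ).eval x : ℝ) : ℂ) := by
      have := Polynomial.aeval_algebraMap_apply_eq_algebraMap_eval (A := ℂ) x (phi n θ)
      simpa using this
    rw [h1] at h
    have h3 : (phi n θ).eval x = 0 := by exact_mod_cast h
    simp only [phi, Polynomial.eval_pow, Polynomial.eval_add, Polynomial.eval_one,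
      Polynomial.eval_mul, Polynomial.eval_C, Polynomial.eval_X] at h3
    have h4 := pow_eq_zero_iff (by omega) |>.1 h3
    have h5 : Real.cos θ < 1 := by
      rw [← Real.cos_zero]
      exact Real.cos_lt_cos_of_nonneg_of_le_pi le_rfl (by linarith [Real.pi_pos]) hθ0
    nlinarith [sq_nonneg (x + Real.cos θ)]
  obtain ⟨V, hV⟩ := real_poly VC (by
    intro x
    have h1 := hVC x
    have h3 : (starRingEnd ℂ) (aeval (om * x) t * aeval (om ^ 2 * x) t) =
        aeval (om * x) t * aeval (om ^ 2 * x) t := by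
      rw [map_mul, conj_aeval, conj_aeval, map_mul, map_mul, map_pow, conj_om,
        Complex.conj_ofReal]
      have h4 : (om ^ 2) ^ 2 = om := by
        linear_combination om * om_cube
      rw [h4]
      ring
    have h5 : (starRingEnd ℂ) (aeval (om * x) (phi n θ) * aeval (om ^ 2 * x) (phi n θ)) =
        aeval (om * x) (phi n θ) * aeval (om ^ 2 * x) (phi n θ) := by
      rw [map_mul, conj_aeval, conj_aeval, map_mul, map_mul, map_pow, conj_om,
        Complex.conj_ofReal]
      have h4 : (om ^ 2) ^ 2 = om := by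
        linear_combination om * om_cube
      rw [h4]
      ring
    have h6 : (starRingEnd ℂ) (aeval (x : ℂ) (phi n θ)) = aeval (x : ℂ) (phi n θ) := by
      rw [conj_aeval, Complex.conj_ofReal]
    have h7 := congrArg (starRingEnd ℂ) h1
    rw [h3, map_add, h5, map_mul (starRingEnd ℂ) (aeval (x : ℂ) (phi n θ)), h6, h1] at h7
    have h8 := add_left_cancel h7
    exact (mul_left_cancel₀ (hphreal x) h8).symm)
  have htwo : ∀ x : ℂ, aeval (om * x) t * aeval (om ^ 2 * x) t =
      aeval (om * x) (phi n θ) * aeval (om ^ 2 * x) (phi n θ)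
        + aeval x (phi n θ) * aeval x V := by
    intro x
    rw [aeval_map V, hV]
    exact hVC x
  -- the third relation
  set T : ℂ[X] := t.map (algebraMap ℝ ℂ) with hT
  set Φ : ℂ[X] := (phi n θ).map (algebraMap ℝ ℂ) with hΦ
  set W : ℂ[X] := V.map (algebraMap ℝ ℂ) with hW
  set r1 : ℂ[X] := C om * X with hr1
  set r2 : ℂ[X] := C (om ^ 2) * X with hr2
  set q : ℂ[X] := 1 + C (2 * (Real.cos θ : ℂ)) * X + X ^ 2 with hq
  have hΦq : Φ = q ^ (2 * n) := by
    rw [hΦ, hq]
    simp [phi]
  have hev1 : ∀ (p : ℂ[X]) (x : ℂ), (p.comp r1).eval x = p.eval (om * x) := by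
    intro p x
    simp [hr1]
  have hev2 : ∀ (p : ℂ[X]) (x : ℂ), (p.comp r2).eval x = p.eval (om ^ 2 * x) := by
    intro p x
    simp [hr2]
  have hom3 : om ^ 3 = 1 := om_cube
  have key : ∀ x : ℂ, T.eval (om * x) * T.eval (om ^ 2 * x) =
      Φ.eval (om * x) * Φ.eval (om ^ 2 * x) + Φ.eval x * W.eval x := by
    intro x
    have := htwo x
    simp only [aeval_map] at this
    exact this
  set D : ℂ[X] := T * T.comp r1 * T.comp r2 - Φ.comp r1 * Φ.comp r2 * T
    - Φ * Φ.comp r2 * T.comp r1 - Φ * Φ.comp r1 * T.comp r2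
    + 2 * Φ * Φ.comp r1 * Φ.comp r2 with hD
  have hDev : ∀ x : ℂ, D.eval x = T.eval x * T.eval (om * x) * T.eval (om ^ 2 * x)
      - Φ.eval (om * x) * Φ.eval (om ^ 2 * x) * T.eval x
      - Φ.eval x * Φ.eval (om ^ 2 * x) * T.eval (om * x)
      - Φ.eval x * Φ.eval (om * x) * T.eval (om ^ 2 * x)
      + 2 * Φ.eval x * Φ.eval (om * x) * Φ.eval (om ^ 2 * x) := by
    intro x
    rw [hD]
    simp only [Polynomial.eval_add, Polynomial.eval_sub, Polynomial.eval_mul, hev1, hev2]
    norm_num
  have hd0 : Φ ∣ D := by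
    refine ⟨W * T - Φ.comp r2 * T.comp r1 - Φ.comp r1 * T.comp r2
      + 2 * Φ.comp r1 * Φ.comp r2, Polynomial.funext fun x => ?_⟩
    rw [hDev]
    simp only [Polynomial.eval_add, Polynomial.eval_sub, Polynomial.eval_mul, hev1, hev2]
    have h1 : (2 : ℂ[X]).eval x = 2 := by norm_num
    rw [h1]
    linear_combination T.eval x * key x
  have hd1 : Φ.comp r1 ∣ D := by
    refine ⟨W.comp r1 * T.comp r1 - Φ.comp r2 * T - Φ * T.comp r2
      + 2 * Φ * Φ.comp r2, Polynomial.funext fun x => ?_⟩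
    rw [hDev]
    simp only [Polynomial.eval_add, Polynomial.eval_sub, Polynomial.eval_mul, hev1, hev2]
    have h1 : (2 : ℂ[X]).eval x = 2 := by norm_num
    rw [h1]
    have h3 := key (om * x)
    have h4 : om * (om * x) = om ^ 2 * x := by ring
    have h5 : om ^ 2 * (om * x) = x := by
      linear_combination x * hom3
    rw [h4, h5] at h3
    linear_combination T.eval (om * x) * h3
  have hd2 : Φ.comp r2 ∣ D := by
    refine ⟨W.comp r2 * T.comp r2 - Φ.comp r1 * T - Φ * T.comp r1
      + 2 * Φ * Φ.comp r1, Polynomial.funext fun x => ?_⟩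
    rw [hDev]
    simp only [Polynomial.eval_add, Polynomial.eval_sub, Polynomial.eval_mul, hev1, hev2]
    have h1 : (2 : ℂ[X]).eval x = 2 := by norm_num
    rw [h1]
    have h3 := key (om ^ 2 * x)
    have h4 : om * (om ^ 2 * x) = x := by
      linear_combination x * hom3
    have h5 : om ^ 2 * (om ^ 2 * x) = om * x := by
      linear_combination om * x * hom3
    rw [h4, h5] at h3
    linear_combination T.eval (om ^ 2 * x) * h3
  have hqev : ∀ x : ℂ, q.eval x = x ^ 2 + 2 * (Real.cos θ : ℂ) * x + 1 := by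
    intro x
    rw [hq]
    simp only [Polynomial.eval_add, Polynomial.eval_one, Polynomial.eval_mul, Polynomial.eval_C,
      Polynomial.eval_X, Polynomial.eval_pow]
    ring
  have cop : ∀ (p p' : ℂ[X]), (∀ x : ℂ, p.eval x = 0 → p'.eval x = 0 → False) →
      IsCoprime p p' := by
    intro p p' h
    rw [Polynomial.isCoprime_iff_aeval_ne_zero_of_isAlgClosed ℂ ℂ]
    intro a
    by_contra hcon
    push Not at hcon
    exact h a (by simpa using hcon.1) (by simpa using hcon.2)
  have c01 : IsCoprime q (q.comp r1) := by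
    refine cop _ _ fun x h1 h3 => ?_
    rw [hev1] at h3
    rw [hqev] at h1 h3
    exact no_common hcos x h1 h3
  have c12 : IsCoprime (q.comp r1) (q.comp r2) := by
    refine cop _ _ fun x h1 h3 => ?_
    rw [hev1] at h1
    rw [hev2] at h3
    rw [hqev] at h1 h3
    have h4 : om * (om * x) = om ^ 2 * x := by ring
    rw [← h4] at h3
    exact no_common hcos (om * x) h1 h3
  have c02 : IsCoprime q (q.comp r2) := by
    refine cop _ _ fun x h1 h3 => ?_
    rw [hev2] at h3
    rw [hqev] at h1 h3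
    have h4 : om * (om ^ 2 * x) = x := by
      linear_combination x * hom3
    rw [← h4] at h1
    exact no_common hcos (om ^ 2 * x) h3 h1
  have hΦ1 : Φ.comp r1 = (q.comp r1) ^ (2 * n) := by rw [hΦq, Polynomial.pow_comp]
  have hΦ2 : Φ.comp r2 = (q.comp r2) ^ (2 * n) := by rw [hΦq, Polynomial.pow_comp]
  have C01 : IsCoprime Φ (Φ.comp r1) := by
    rw [hΦ1, hΦq]
    exact c01.pow
  have C12 : IsCoprime (Φ.comp r1) (Φ.comp r2) := by
    rw [hΦ1, hΦ2]
    exact c12.pow
  have C02 : IsCoprime Φ (Φ.comp r2) := by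
    rw [hΦ2, hΦq]
    exact c02.pow
  have hdvd : Φ * Φ.comp r1 * Φ.comp r2 ∣ D :=
    (C02.mul_left C12).mul_dvd (C01.mul_dvd hd0 hd1) hd2
  obtain ⟨H, hH⟩ := hdvd
  have hqdeg : q.natDegree = 2 := by
    rw [hq]
    compute_degree!
  have hΦdeg : Φ.natDegree = 4 * n := by
    rw [hΦq, Polynomial.natDegree_pow, hqdeg]
    ring
  have hr1deg : r1.natDegree = 1 := Polynomial.natDegree_C_mul_X _ om_ne_zero
  have hr2deg : r2.natDegree = 1 := Polynomial.natDegree_C_mul_X _ (pow_ne_zero 2 om_ne_zero)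
  have hΦ1deg : (Φ.comp r1).natDegree = 4 * n := by
    rw [Polynomial.natDegree_comp, hΦdeg, hr1deg, mul_one]
  have hΦ2deg : (Φ.comp r2).natDegree = 4 * n := by
    rw [Polynomial.natDegree_comp, hΦdeg, hr2deg, mul_one]
  have hTdeg : T.natDegree ≤ 4 * n := by
    rw [hT]
    exact (Polynomial.natDegree_map_le).trans hdeg
  have hT1deg : (T.comp r1).natDegree ≤ 4 * n := by
    rw [Polynomial.natDegree_comp, hr1deg, mul_one]
    exact hTdeg
  have hT2deg : (T.comp r2).natDegree ≤ 4 * n := by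
    rw [Polynomial.natDegree_comp, hr2deg, mul_one]
    exact hTdeg
  have m3 : ∀ a b c : ℂ[X], a.natDegree ≤ 4 * n → b.natDegree ≤ 4 * n → c.natDegree ≤ 4 * n →
      (a * b * c).natDegree ≤ 12 * n := by
    intro a b c ha hb hc
    refine (Polynomial.natDegree_mul_le).trans ?_
    have := Polynomial.natDegree_mul_le (p := a) (q := b)
    omega
  have hDdeg : D.natDegree ≤ 12 * n := by
    rw [hD]
    have e1 : (2 * Φ * Φ.comp r1 * Φ.comp r2).natDegree ≤ 12 * n := by
      refine m3 (2 * Φ) _ _ ?_ hΦ1deg.le hΦ2deg.le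
      refine (Polynomial.natDegree_mul_le).trans ?_
      have : (2 : ℂ[X]).natDegree = 0 := Polynomial.natDegree_ofNat 2
      rw [this, hΦdeg]
      omega
    refine (Polynomial.natDegree_add_le _ _).trans (max_le ?_ e1)
    refine (Polynomial.natDegree_sub_le _ _).trans (max_le ?_ (m3 _ _ _ hΦdeg.le hΦ1deg.le hT2deg))
    refine (Polynomial.natDegree_sub_le _ _).trans (max_le ?_ (m3 _ _ _ hΦdeg.le hΦ2deg.le hT1deg))
    refine (Polynomial.natDegree_sub_le _ _).trans (max_le ?_ (m3 _ _ _ hΦ1deg.le hΦ2deg.le hTdeg))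
    exact m3 _ _ _ hTdeg hT1deg hT2deg
  have hΦne : Φ ≠ 0 := by
    intro h
    rw [h, Polynomial.natDegree_zero] at hΦdeg
    omega
  have hΦ1ne : Φ.comp r1 ≠ 0 := by
    intro h
    rw [h, Polynomial.natDegree_zero] at hΦ1deg
    omega
  have hΦ2ne : Φ.comp r2 ≠ 0 := by
    intro h
    rw [h, Polynomial.natDegree_zero] at hΦ2deg
    omega
  have hD0 : D = 0 := by
    by_contra hne
    have hHne : H ≠ 0 := by
      rintro rfl
      rw [mul_zero] at hH
      exact hne hH
    have h1 : D.natDegree = 12 * n + H.natDegree := by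
      rw [hH, Polynomial.natDegree_mul (mul_ne_zero (mul_ne_zero hΦne hΦ1ne) hΦ2ne) hHne,
        Polynomial.natDegree_mul (mul_ne_zero hΦne hΦ1ne) hΦ2ne,
        Polynomial.natDegree_mul hΦne hΦ1ne, hΦdeg, hΦ1deg, hΦ2deg]
      ring
    have h3 : H.natDegree = 0 := by omega
    rw [Polynomial.natDegree_eq_zero] at h3
    obtain ⟨c, rfl⟩ := h3
    have h4 : D.eval 0 = c := by
      rw [hH]
      simp only [Polynomial.eval_mul, hev1, hev2, mul_zero, Polynomial.eval_C]
      have : Φ.eval 0 = 1 := by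
        rw [hΦq, Polynomial.eval_pow, hqev]
        simp
      rw [this]
      ring
    have h5 : D.eval 0 = 0 := by
      rw [hDev]
      simp only [mul_zero]
      have h6 : Φ.eval 0 = 1 := by
        rw [hΦq, Polynomial.eval_pow, hqev]
        simp
      have h7 : T.eval 0 = -2 := by
        rw [hT, ← Polynomial.coeff_zero_eq_eval_zero, Polynomial.coeff_map, hzero]
        simp
      rw [h6, h7]
      norm_num
    rw [h4] at h5
    apply hHne
    rw [h5, Polynomial.C_0]
  refine ⟨hdeg, hpal, hzero, ⟨V, htwo⟩, fun x => ?_⟩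
  have h1 := hDev x
  rw [hD0, Polynomial.eval_zero] at h1
  simp only [aeval_map]
  linear_combination -h1

end W96CL
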